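import Pool.Agent.U583.LG.Main

/-!
Lipschitz homeomorphisms between nonseparable superreflexive Banach spaces that are Gateaux
differentiable at no point: the negative answer to both questions.

Definitions (file `Pool/Agent/U583/LG/Basic.lean`), all literal:
`GateauxAt φ x`: there is a bounded linear `T` with `(φ (x + t h) - φ x) / t → T h`, `t → 0`, for all
`h`; `OneSidedAt φ x h`: `(φ (x + t h) - φ x) / t` has a limit for `t → 0+`; `LipHomeo φ`: `φ` is a
bijection and `φ`, `φ⁻¹` are Lipschitz; `Refl X`: every `F ∈ X**` is the evaluation at a point of `X`;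
`FinRep Z X`: `Z` is finitely representable in `X`; `SuperRefl X`: all Banach spaces that are
finitely representable in `X` are reflexive.
`UncSys e f` (file `Pool/Agent/U583/LG/Main.lean`): `e γ ∈ X`, `f γ ∈ X*`, `f γ (e δ) = 1` for `γ = δ`
and `= 0` otherwise, and `∑ f γ x • e γ` converges unconditionally for every `x`.
-/

open Set Pool.Agent.U583.LG

set_option autoImplicit false

/-- (1) There is a nonseparable real Hilbert space. (2) Let `H` be any nonseparable real Hilbert
space. Then `H` is reflexive and superreflexive, and for every `ε > 0` there is a Lipschitz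
homeomorphism `φ` of `H` onto `H` such that `φ - id` has Lipschitz constant at most `ε` and `φ` is
Gateaux differentiable at no point of `H`; moreover, for every `x` there is a unit vector `h` such
that not even the one-sided derivatives of `φ` at `x` in the directions `h` and `-h` exist.
(3) The same is true for all real Banach spaces `X` with an uncountable biorthogonal system `(e, f)`
for which `∑ f γ x • e γ` converges unconditionally for all `x`: for each `x` the one-sided
derivatives at `x` in the directions `e γ` and `- e γ` exist for at most countably many `γ`. -/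
theorem Pool.Agent.Results.MP_714461_an.NowhereGateaux.result.{u, v, w} :
    (∃ (H : Type) (_ : NormedAddCommGroup H) (_ : InnerProductSpace ℝ H) (_ : CompleteSpace H),
      ¬ TopologicalSpace.SeparableSpace H) ∧
    (∀ (H : Type u) [NormedAddCommGroup H] [InnerProductSpace ℝ H] [CompleteSpace H],
      ¬ TopologicalSpace.SeparableSpace H →
      Refl H ∧ SuperRefl.{u, v} H ∧
      ∀ ε : ℝ, 0 < ε → ∃ φ : H → H, LipHomeo φ ∧
        (∀ x y, ‖(φ x - x) - (φ y - y)‖ ≤ ε * ‖x - y‖) ∧
        ∀ x, ¬ GateauxAt φ x ∧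
          ∃ h : H, ‖h‖ = 1 ∧ ¬ OneSidedAt φ x h ∧ ¬ OneSidedAt φ x (-h)) ∧
    (∀ (X : Type u) [NormedAddCommGroup X] [NormedSpace ℝ X] [CompleteSpace X] (Γ : Type w)
      [Uncountable Γ] (e : Γ → X) (f : Γ → X →L[ℝ] ℝ), UncSys e f →
      ∀ ε : ℝ, 0 < ε → ∃ φ : X → X, LipHomeo φ ∧
        (∀ x y, ‖(φ x - x) - (φ y - y)‖ ≤ ε * ‖x - y‖) ∧
        ∀ x, ¬ GateauxAt φ x ∧
          {γ | OneSidedAt φ x (e γ) ∨ OneSidedAt φ x (-(e γ))}.Countable) := by
  refine ⟨exists_nonseparable, ?_, ?_⟩
  · intro H _ _ _ hH
    refine ⟨refl_hilbert H, superRefl_hilbert H, fun ε hε => ?_⟩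
    obtain ⟨Γ, e, f, hΓ, hu, he⟩ := hilbert_uncSys H hH
    obtain ⟨φ, h1, h2, h3⟩ := hu.main hε
    refine ⟨φ, h1, h2, fun x => ?_⟩
    obtain ⟨γ, hγ⟩ : ∃ γ, f γ x = 0 := by
      by_contra hcon
      have : {γ | f γ x ≠ 0} = univ := eq_univ_of_forall fun γ h0 => hcon ⟨γ, h0⟩
      have hc := hu.countable_support x
      rw [this] at hc
      exact not_countable (α := Γ) (countable_univ_iff.1 hc)
    have hp := h3 x γ 1 hγ (by norm_num)
    have hn := h3 x γ (-1) hγ (by norm_num)
    rw [one_smul] at hp
    rw [neg_smul, one_smul] at hn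
    exact ⟨not_gateaux_of_not_oneSided hp, e γ, he γ, hp, hn⟩
  · intro X _ _ _ Γ _ e f hu ε hε
    obtain ⟨φ, h1, h2, h3⟩ := hu.main hε
    refine ⟨φ, h1, h2, fun x => ?_⟩
    have hall : ∀ γ, f γ x = 0 → ¬ OneSidedAt φ x (e γ) ∧ ¬ OneSidedAt φ x (-(e γ)) := by
      intro γ hγ
      have hp := h3 x γ 1 hγ (by norm_num)
      have hn := h3 x γ (-1) hγ (by norm_num)
      rw [one_smul] at hp
      rw [neg_smul, one_smul] at hn
      exact ⟨hp, hn⟩
    constructor
    · obtain ⟨γ, hγ⟩ : ∃ γ, f γ x = 0 := by
        by_contra hcon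
        have : {γ | f γ x ≠ 0} = univ := eq_univ_of_forall fun γ h0 => hcon ⟨γ, h0⟩
        have hc := hu.countable_support x
        rw [this] at hc
        exact not_countable (α := Γ) (countable_univ_iff.1 hc)
      exact not_gateaux_of_not_oneSided (hall γ hγ).1
    · have hsub : {γ | OneSidedAt φ x (e γ) ∨ OneSidedAt φ x (-(e γ))} ⊆ {γ | f γ x ≠ 0} := ?_
      · exact (hu.countable_support x).mono hsub
      intro γ hγ h0
      rcases hγ with hγ | hγ
      · exact (hall γ h0).1 hγ
      · exact (hall γ h0).2 hγ
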